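import Pool.Agent.BMLM.C04

set_option autoImplicit false

/-!
# Bosonic Coulomb matter: the limit of `E₀(N) / N^(5/3)` exists
-/

open MeasureTheory Filter
open scoped Topology ContDiff

namespace Pool.Agent.Results.MP_28854f_mp.BosonicMatterLimit

/-- Positions of `N` particles in `ℝ³`. -/
abbrev Config (N : ℕ) : Type := Fin N → EuclideanSpace ℝ (Fin 3)

/-- The unit vector of `(ℝ³)^N` in the direction of coordinate `a` of particle `i`. -/
noncomputable def unitVec {N : ℕ} (i : Fin N) (a : Fin 3) : Config N :=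
  Pi.single i (EuclideanSpace.single a (1 : ℝ))

/-- `g` is the weak partial derivative of `ψ` with respect to coordinate `a` of particle `i`. -/
def IsWeakPartial {N : ℕ} (i : Fin N) (a : Fin 3) (ψ g : Config N → ℂ) : Prop :=
  ∀ φ : Config N → ℂ, ContDiff ℝ ∞ φ → HasCompactSupport φ →
    ∫ x, ψ x * fderiv ℝ φ x (unitVec i a) = -∫ x, g x * φ x

/-- `ψ` is a normalised function in `H¹(ℝ^(3N))`, with weak partial derivatives `G i a`. No symmetry
is imposed. -/
structure IsState {N : ℕ} (ψ : Config N → ℂ) (G : Fin N → Fin 3 → Config N → ℂ) : Prop where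
  memLp : MemLp ψ 2
  memLp_grad : ∀ i a, MemLp (G i a) 2
  weak : ∀ i a, IsWeakPartial i a ψ (G i a)
  normalised : ∫ x, ‖ψ x‖ ^ 2 = 1

/-- The total Coulomb potential of `N` particles of charge `-1` at `x` and `K` particles of charge
`z` at `R`. -/
noncomputable def potential (z : ℝ) {K N : ℕ} (R : Config K) (x : Config N) : ℝ :=
  (∑ i, ∑ j ∈ Finset.Ioi i, ‖x i - x j‖⁻¹) - z * (∑ i, ∑ k, ‖x i - R k‖⁻¹) +
    z ^ 2 * (∑ k, ∑ l ∈ Finset.Ioi k, ‖R k - R l‖⁻¹)

/-- The energy `⟨ψ, H_{N,R} ψ⟩` of a state. -/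
noncomputable def energy (z : ℝ) {K N : ℕ} (R : Config K) (ψ : Config N → ℂ)
    (G : Fin N → Fin 3 → Config N → ℂ) : ℝ :=
  (∑ i, ∑ a, ∫ x, ‖G i a x‖ ^ 2) + ∫ x, potential z R x * ‖ψ x‖ ^ 2

/-- All energies of neutral systems with `N` negative particles: `K = N / z` nuclei at arbitrary
pairwise distinct positions (the energy is infinite if two positions coincide), and all states. -/
def energies (z : ℝ) (N : ℕ) : Set ℝ :=
  {E | ∃ (K : ℕ) (R : Config K) (ψ : Config N → ℂ) (G : Fin N → Fin 3 → Config N → ℂ),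
    (K : ℝ) * z = N ∧ Function.Injective R ∧ IsState ψ G ∧ E = energy z R ψ G}

/-- The ground state energy `E₀(N)`. -/
noncomputable def groundEnergy (z : ℝ) (N : ℕ) : ℝ := sInf (energies z N)

namespace Aux

open Pool.Agent.Lib_helper90c

theorem lower {z g : ℝ} {K N : ℕ} (R : Config K)
    (hg : ∀ ψ : Conf N → ℂ, Trial ψ → g ≤ Pool.Agent.Lib_helper90c.energy z R ψ)
    {ψ : Config N → ℂ} {G : Fin N → Fin 3 → Config N → ℂ} (h : IsState ψ G) :
    g ≤ energy z R ψ G := by
  set ψ' : Config N → ℂ := h.memLp.1.mk ψ with hψ'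
  have hψe : ψ =ᵐ[volume] ψ' := h.memLp.1.ae_eq_mk
  set G' : Fin N × Fin 3 → Config N → ℂ := fun q => (h.memLp_grad q.1 q.2).1.mk (G q.1 q.2)
    with hG'
  have hGe : ∀ q : Fin N × Fin 3, G q.1 q.2 =ᵐ[volume] G' q := fun q =>
    (h.memLp_grad q.1 q.2).1.ae_eq_mk
  have hn : ∫ x, ‖ψ' x‖ ^ 2 = 1 := by
    rw [← h.normalised]
    apply integral_congr_ae
    filter_upwards [hψe] with x hx
    rw [hx]
  have key := h1_lower R hg (ψ := ψ') (G := G') h.memLp.1.stronglyMeasurable_mk.measurable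
    ((memLp_congr_ae hψe).1 h.memLp)
    (fun q => (h.memLp_grad q.1 q.2).1.stronglyMeasurable_mk.measurable)
    (fun q => (memLp_congr_ae (hGe q)).1 (h.memLp_grad q.1 q.2))
    (fun q => weakD_congr (h.weak q.1 q.2) hψe (hGe q)) hn
  refine key.trans (le_of_eq ?_)
  unfold energy
  congr 1
  · refine Finset.sum_congr rfl fun i _ => Finset.sum_congr rfl fun a _ => ?_
    apply integral_congr_ae
    filter_upwards [hGe (i, a)] with x hx
    rw [← hx]
  · apply integral_congr_ae
    filter_upwards [hψe] with x hx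
    rw [← hx]
    rfl

theorem state_of_trial {N : ℕ} {ψ : Conf N → ℂ} (h : Trial ψ) :
    IsState ψ (fun i a x => fderiv ℝ ψ x (unitVec i a)) := by
  have hc : ∀ i a, Continuous fun x => fderiv ℝ ψ x (unitVec (N := N) i a) := fun i a =>
    (h.smooth.continuous_fderiv (by simp)).clm_apply continuous_const
  have hs : ∀ i a, HasCompactSupport fun x => fderiv ℝ ψ x (unitVec (N := N) i a) := fun i a => by
    refine (h.compact.fderiv ℝ).mono fun x hx => ?_
    by_contra hcon
    apply hx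
    have : fderiv ℝ ψ x = 0 := by by_contra h; exact hcon h
    simp [this]
  exact ⟨h.smooth.continuous.memLp_of_hasCompactSupport h.compact,
    fun i a => (hc i a).memLp_of_hasCompactSupport (hs i a),
    fun i a => weakD_classical h.smooth h.compact _, h.normalized⟩

theorem energy_of_trial (z : ℝ) {K N : ℕ} (R : Config K) {ψ : Conf N → ℂ} (h : Trial ψ) :
    energy z R ψ (fun i a x => fderiv ℝ ψ x (unitVec i a)) =
      Pool.Agent.Lib_helper90c.energy z R ψ := by
  have hc : ∀ i a, Continuous fun x => fderiv ℝ ψ x (unitVec (N := N) i a) := fun i a =>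
    (h.smooth.continuous_fderiv (by simp)).clm_apply continuous_const
  have hint : ∀ i a, Integrable fun x => ‖fderiv ℝ ψ x (unitVec (N := N) i a)‖ ^ 2 := by
    intro i a
    refine ((hc i a).norm.pow 2).integrable_of_hasCompactSupport ?_
    refine (h.compact.fderiv ℝ).mono fun x hx => ?_
    by_contra hcon
    apply hx
    have : fderiv ℝ ψ x = 0 := by by_contra h; exact hcon h
    simp [this]
  unfold energy Pool.Agent.Lib_helper90c.energy kinetic
  congr 1
  rw [integral_finsetSum _ fun i _ => ?_]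
  · refine Finset.sum_congr rfl fun i _ => ?_
    exact (integral_finsetSum _ fun a _ => hint i a).symm
  · unfold gradSq
    exact integrable_finsetSum _ fun a _ => hint i a

theorem enSet_subset (z : ℝ) (N : ℕ) : enSet z N ⊆ energies z N := by
  rintro E ⟨K, R, ψ, hK, hR, hψ, rfl⟩
  exact ⟨K, R, ψ, _, hK, hR, state_of_trial hψ, (energy_of_trial z R hψ).symm⟩

theorem enSet_nonempty (z : ℝ) {N : ℕ} (h : ∃ K : ℕ, (K : ℝ) * z = N) :
    (enSet z N).Nonempty := by
  obtain ⟨K, hK⟩ := h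
  obtain ⟨u, hu⟩ := exists_trial1
  have hR : Function.Injective fun k : Fin K =>
      (EuclideanSpace.single (0 : Fin 3) ((k : ℕ) : ℝ) : EuclideanSpace ℝ (Fin 3)) := by
    intro k l hkl
    have h1 := congrArg (fun v : EuclideanSpace ℝ (Fin 3) => v 0) hkl
    simp at h1
    exact Fin.ext h1
  exact ⟨_, K, _, prodS N u, hK, hR, trial_prodS hu, rfl⟩

theorem bddBelow {z : ℝ} (hz : 0 < z) {N : ℕ} (hN : 0 < N) : BddBelow (energies z N) := by
  obtain ⟨m, hm⟩ := enSet_bddBelow hz hN
  refine ⟨m, ?_⟩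
  rintro E ⟨K, R, ψ, G, hK, hR, h, rfl⟩
  exact lower R (fun ψ' h' => hm ⟨K, R, ψ', hK, hR, h', rfl⟩) h

theorem groundEnergy_eq {z : ℝ} (hz : 0 < z) {N : ℕ} (hN : 0 < N)
    (hadm : ∃ K : ℕ, (K : ℝ) * z = N) :
    groundEnergy z N = Pool.Agent.Lib_helper90c.groundEnergy z N := by
  have hne := enSet_nonempty z hadm
  refine le_antisymm (csInf_le_csInf (bddBelow hz hN) hne (enSet_subset z N)) ?_
  refine le_csInf (hne.mono (enSet_subset z N)) ?_
  rintro E ⟨K, R, ψ, G, hK, hR, h, rfl⟩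
  refine lower R (fun ψ' h' => ?_) h
  exact csInf_le (enSet_bddBelow hz hN) ⟨K, R, ψ', hK, hR, h', rfl⟩

end Aux

/-- For every charge `z > 0`: the infimum `E₀(N)` of the energies is finite for every admissible
`N`, and `E₀(N) / N^(5/3)` converges as `N → ∞` through the admissible values `N = K z`. -/
theorem result (z : ℝ) (hz : 0 < z) :
    (∀ N : ℕ, 0 < N → (∃ K : ℕ, (K : ℝ) * z = N) → IsGLB (energies z N) (groundEnergy z N)) ∧
    ∃ L : ℝ, Tendsto (fun N : ℕ => groundEnergy z N / (N : ℝ) ^ (5 / 3 : ℝ))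
      (atTop ⊓ 𝓟 {N : ℕ | ∃ K : ℕ, (K : ℝ) * z = N}) (𝓝 L) := by
  refine ⟨fun N hN hadm => ?_, Pool.Agent.Lib_helper90c.limE z, ?_⟩
  · exact isGLB_csInf ((Aux.enSet_nonempty z hadm).mono (Aux.enSet_subset z N))
      (Aux.bddBelow hz hN)
  · refine (Pool.Agent.Lib_helper90c.limit_exists hz).congr' ?_
    have h0 : ∀ᶠ N : ℕ in atTop, 0 < N := eventually_gt_atTop 0
    rw [EventuallyEq, eventually_inf_principal]
    filter_upwards [h0] with N hN hadm
    rw [Aux.groundEnergy_eq hz hN hadm]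

end Pool.Agent.Results.MP_28854f_mp.BosonicMatterLimit
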